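import Pool.Agent.H.MP_0d212c.E

set_option autoImplicit false

namespace Pool.Agent.Results.MP_151be3_an.ThreeSpace

theorem result :
    ∀ (X : Type) [NormedAddCommGroup X] [NormedSpace ℝ X] [CompleteSpace X]
      (Y : Submodule ℝ X) [IsClosed (Y : Set X)],
      (∃ b : Y → ℝ, ContDiff ℝ 1 b ∧ (∃ y, b y ≠ 0) ∧ Bornology.IsBounded (Function.support b)) →
      (∃ b : X ⧸ Y → ℝ, ContDiff ℝ 1 b ∧ (∃ z, b z ≠ 0) ∧
        Bornology.IsBounded (Function.support b)) →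
      ∃ b : X → ℝ, ContDiff ℝ 1 b ∧ (∃ x, b x ≠ 0) ∧ Bornology.IsBounded (Function.support b) := by
  rintro X _ _ _ Y hY ⟨a, a1, a2, a3⟩ ⟨b, b1, b2, b3⟩
  have := hY.completeSpace_coe
  obtain ⟨g, g1, -, g2⟩ := (H.MP_0d212c.frag_three Y
    (H.MP_0d212c.dent_of_bump (a1.differentiable one_ne_zero) a2 a3)
    (H.MP_0d212c.dent_of_bump (b1.differentiable one_ne_zero) b2 b3)).bump
  exact ⟨g, g1, g2⟩

end Pool.Agent.Results.MP_151be3_an.ThreeSpace
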